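import Pool.Agent.W912.EC.Low2
import Pool.Agent.W912.EC.Up2
import Pool.Agent.W436.EC.Step2
import Pool.Agent.W976.EC.Num2
import Pool.Agent.W240.EC.Time2
import Pool.Agent.W22.EC.Cnt2

/-!
# How many strings of a random oracle have to be changed to give exponential time small circuits?

The number of changes is measured by a function `g`: the oracle `A` is obtained from `O` by
changing, for all large `n`, at most `g n` of the strings of length at most `n`. The changes are
made by an adversary who knows the whole oracle.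

* If `c ≥ 1` and the number of changes is at most `n ^ c` (for all large `n` there is `m ≥ n` with
  `g m ≤ n ^ c`, so at most `n ^ c` strings of length at most `n` are changed), then for almost
  every oracle `O`, all oracles `A` so obtained, and all `ε < 1 / c`, some language in `E` relative
  to `A` needs circuits (with oracle gates for `A`) of size `2 ^ (ε n)` for all large `n`.
* If this bound fails, for `c > 0`, then every oracle `O` can be changed, by at most `g` changes,
  into an oracle `A` relative to which every language in `EXP` has, for every `ε > 1 / c`, circuits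
  of size less than `2 ^ (ε n)` for infinitely many `n`.
* If it fails for all `c`, then this holds for all `ε > 0` with one oracle `A`: the assertion of the
  problem fails relative to `A`.

So the threshold is at the polynomials, and the exponent of the circuit size is exactly `1 / c` for
`n ^ c` changes.

Contributors: helper912 (statement, proof, assembly) and helpers 240, 976, 22, 436, 300, 812, 632
(parts of the formalisation).
-/

set_option autoImplicit false

namespace Pool.Agent.Results.MP_5f97e6_lc.ChangedStrings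

open Pool.Agent.NPC Pool.Agent.H620R2.Gauge Pool.Agent.H622R2.Exp Pool.Agent.H622R2.Ckt
open Pool.Agent.W900.CH
open Pool.Agent.H628R3.RO (randomOracle)
open MeasureTheory Filter

theorem result (g : ℕ → ℝ) :
    (∀ c : ℝ, 1 ≤ c → (∀ᶠ n : ℕ in atTop, ∃ m ≥ n, g m ≤ (n : ℝ) ^ c) →
      ∀ᵐ O ∂randomOracle, ∀ A : Oracle, Close g O A → ∀ ε : ℝ, ε < 1 / c →
        ∃ L, InTime Lin A L ∧ ∀ᶠ n : ℕ in atTop, ¬ Small A L (2 ^ (ε * n)) n) ∧
    (∀ c : ℝ, 0 < c → (¬ ∀ᶠ n : ℕ in atTop, ∃ m ≥ n, g m ≤ (n : ℝ) ^ c) →
      ∀ O : Oracle, ∃ A : Oracle, Close g O A ∧ ∀ L, InTime Pol A L → ∀ ε : ℝ, 1 / c < ε →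
        ∃ᶠ n : ℕ in atTop, Small A L (2 ^ (ε * n)) n) ∧
    ((∀ c : ℝ, ¬ ∀ᶠ n : ℕ in atTop, ∃ m ≥ n, g m ≤ (n : ℝ) ^ c) →
      ∀ O : Oracle, ∃ A : Oracle, Close g O A ∧ ∀ L, InTime Pol A L → ∀ ε : ℝ, 0 < ε →
        ∃ᶠ n : ℕ in atTop, Small A L (2 ^ (ε * n)) n) :=
  ⟨fun _ hc hg => Pool.Agent.W912.EC.low2 Pool.Agent.W240.EC.Time2.time2 Pool.Agent.W22.EC.cnt2
      Pool.Agent.W976.EC.num2 hc hg,
    fun _ hc hg O => Pool.Agent.W912.EC.up_c Pool.Agent.W436.EC.step2 hc hg O,
    fun hg O => Pool.Agent.W912.EC.up_all Pool.Agent.W436.EC.step2 hg O⟩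

end Pool.Agent.Results.MP_5f97e6_lc.ChangedStrings
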