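import Pool.Agent.W908.U.U6

set_option autoImplicit false

/-!
# No quantum advantage, and circuits of linear size for exponential time

Impagliazzo and Wigderson: if some language in `E` needs circuits of exponential size then
randomness does not help. The converse fails relative to some oracle, in a strong sense: quantum
computers have no advantage at all, not even for promise problems, but every language in `E` has
circuits of linear size.
-/

namespace Pool.Agent.Results.MP_5f97e6_lc.LinearSizeNoQuantum

open Pool.Agent.NPC Pool.Agent.H620R2.Gauge Pool.Agent.W908 Pool.Agent.H622R2
open Pool.Agent.H622R2.Exp (InTime Lin Pol)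

/-- There is an oracle `O` relative to which
(1) quantum computers have no advantage, even for promise problems: for every uniform family `C`
of polynomial-size quantum circuits with gates for `O` there is a function `D` computable in
deterministic polynomial time relative to `O` with `D x = [true]` if `C x` accepts with probability
at least `2 / 3`, and `D x ≠ [true]` if `C x` accepts with probability at most `1 / 3`;
(2) every language in `E` has circuits (with oracle gates, size counted with the wires of the
oracle gates) of linear size, for all input lengths;
(3) every language in `EXP` has circuits of polynomial size, and is in `UP` and in `coUP`;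
(4) there is a tally set `T` in `UP` and `coUP` such that every language in `EXP` is decidable in
polynomial time relative to the join of `O` and `T`. -/
theorem result : ∃ O : Oracle,
    (∀ C : List Bool → List Unit × List Gate, PolyTime (fun x => bits (C x)) →
      ∃ D : List Bool → List Bool, IsFP O D ∧ ∀ x : List Bool,
        (2 / 3 ≤ accProb O (C x) → D x = [true]) ∧ (accProb O (C x) ≤ 1 / 3 → D x ≠ [true])) ∧
    (∀ L : Set (List Bool), InTime Lin O L → ∃ c : ℕ, ∀ n : ℕ,
      Ckt.Small O L (c * (n + 1)) n) ∧
    (∀ L : Set (List Bool), InTime Pol O L → (∃ p : Polynomial ℕ, ∀ n : ℕ,
      Ckt.Small O L (p.eval n : ℕ) n) ∧ IsUP O L ∧ IsUP O Lᶜ) ∧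
    ∃ T : Oracle, (∀ x : List Bool, T x = true → ∃ n, x = List.replicate n true) ∧
      IsUP O {x | T x = true} ∧ IsUP O {x | T x = true}ᶜ ∧
      ∀ L : Set (List Bool), InTime Pol O L → IsP (join O T) L :=
  Pool.Agent.W908.US.mainU

end Pool.Agent.Results.MP_5f97e6_lc.LinearSizeNoQuantum
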